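import Pool.Agent.Helper830_CND.Step

namespace H830CND

open SimpleGraph

/-- generalized Petersen datum `GP(t,4)` with subdivided spokes -/
def base (t : ℕ) : Dat (Bool × ZMod t) (ZMod t) where
  f := { toFun := fun v => (v.1, v.2 + if v.1 then 4 else 1)
         invFun := fun v => (v.1, v.2 - if v.1 then 4 else 1)
         left_inv := fun v => by simp
         right_inv := fun v => by simp }
  l := fun x => (false, x)
  r := fun x => (true, x)

variable {t : ℕ}

/-- outer vertices -/
def O (i : ZMod t) : (Bool × ZMod t) ⊕ ZMod t := .inl (false, i)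
/-- inner vertices -/
def N (i : ZMod t) : (Bool × ZMod t) ⊕ ZMod t := .inl (true, i)
/-- spoke vertices -/
def X (i : ZMod t) : (Bool × ZMod t) ⊕ ZMod t := .inr i

/-- the next function -/
def nx (t : ℕ) : (Bool × ZMod t) ⊕ ZMod t → (Bool × ZMod t) ⊕ ZMod t
  | .inl (false, i) => if i = 0 then O (-1) else
      if i.val % 8 = 1 ∨ i.val % 8 = 3 then O (i - 1) else
      if i.val % 8 = 4 ∨ i.val % 8 = 6 then O (i + 1) else X i
  | .inl (true, i) => if i.val % 8 = 1 ∨ i.val % 8 = 3 ∨ i.val % 8 = 4 ∨ i.val % 8 = 6 then X i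
      else N (i + 4)
  | .inr i => if i.val % 8 = 1 ∨ i.val % 8 = 3 ∨ i.val % 8 = 4 ∨ i.val % 8 = 6 then O i else N i

lemma nO0 : nx t (O 0) = O (-1) := by simp [nx, O]

lemma nO1 {n : ℕ} (hn : n < t) (h : n % 8 = 1 ∨ n % 8 = 3) : nx t (O (n : ZMod t)) = O ((n - 1 : ℕ) : ZMod t) := by
  have hv : (n : ZMod t).val = n := ZMod.val_cast_of_lt hn
  have h0 : (n : ZMod t) ≠ 0 := by
    intro e; rw [e] at hv; rw [ZMod.val_zero] at hv; omega
  simp only [nx, O]
  rw [if_neg h0, hv, if_pos h, Nat.cast_sub (by omega)]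
  simp

lemma nO2 {n : ℕ} (hn : n < t) (h : n % 8 = 4 ∨ n % 8 = 6) : nx t (O (n : ZMod t)) = O ((n + 1 : ℕ) : ZMod t) := by
  have hv : (n : ZMod t).val = n := ZMod.val_cast_of_lt hn
  have h0 : (n : ZMod t) ≠ 0 := by
    intro e; rw [e] at hv; rw [ZMod.val_zero] at hv; omega
  simp only [nx, O]
  rw [if_neg h0, hv, if_neg (by omega), if_pos h]
  simp

lemma nO3 {n : ℕ} (hn : n < t) (h0 : n ≠ 0) (h : n % 8 = 0 ∨ n % 8 = 2 ∨ n % 8 = 5 ∨ n % 8 = 7) :
    nx t (O (n : ZMod t)) = X (n : ZMod t) := by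
  have hv : (n : ZMod t).val = n := ZMod.val_cast_of_lt hn
  have h0 : (n : ZMod t) ≠ 0 := by
    intro e; rw [e] at hv; rw [ZMod.val_zero] at hv; omega
  simp only [nx, O]
  rw [if_neg h0, hv, if_neg (by omega), if_neg (by omega)]

lemma nN1 {n : ℕ} (hn : n < t) (h : n % 8 = 1 ∨ n % 8 = 3 ∨ n % 8 = 4 ∨ n % 8 = 6) :
    nx t (N (n : ZMod t)) = X (n : ZMod t) := by
  have hv : (n : ZMod t).val = n := ZMod.val_cast_of_lt hn
  simp only [nx, N]
  rw [hv, if_pos h]

lemma nN2 {n : ℕ} (hn : n < t) (h : n % 8 = 0 ∨ n % 8 = 2 ∨ n % 8 = 5 ∨ n % 8 = 7) :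
    nx t (N (n : ZMod t)) = N ((n + 4 : ℕ) : ZMod t) := by
  have hv : (n : ZMod t).val = n := ZMod.val_cast_of_lt hn
  simp only [nx, N]
  rw [hv, if_neg (by omega)]
  simp

lemma nX1 {n : ℕ} (hn : n < t) (h : n % 8 = 1 ∨ n % 8 = 3 ∨ n % 8 = 4 ∨ n % 8 = 6) :
    nx t (X (n : ZMod t)) = O (n : ZMod t) := by
  have hv : (n : ZMod t).val = n := ZMod.val_cast_of_lt hn
  simp only [nx, X]
  rw [hv, if_pos h]

lemma nX2 {n : ℕ} (hn : n < t) (h : n % 8 = 0 ∨ n % 8 = 2 ∨ n % 8 = 5 ∨ n % 8 = 7) :
    nx t (X (n : ZMod t)) = N (n : ZMod t) := by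
  have hv : (n : ZMod t).val = n := ZMod.val_cast_of_lt hn
  simp only [nx, X]
  rw [hv, if_neg (by omega)]

/-- reachability -/
def R (t : ℕ) (w : (Bool × ZMod t) ⊕ ZMod t) : Prop := ∃ k, (nx t)^[k] (X 1) = w

lemma R.next {w w' : (Bool × ZMod t) ⊕ ZMod t} (h : R t w) (e : nx t w = w') : R t w' := by
  obtain ⟨k, hk⟩ := h
  exact ⟨k + 1, by rw [Function.iterate_succ_apply', hk, e]⟩

lemma loop1 {m q : ℕ} (ht : t = 8 * m + 3) (hq : q < m) (h : R t (N ((8 * q + 3 : ℕ) : ZMod t))) :
    (∀ s, (s = 2 ∨ s = 3 ∨ s = 6 ∨ s = 7) → R t (O ((8 * q + s : ℕ) : ZMod t)) ∧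
      R t (X ((8 * q + s : ℕ) : ZMod t)) ∧ R t (N ((8 * q + s : ℕ) : ZMod t))) ∧
    R t (N ((8 * (q + 1) + 3 : ℕ) : ZMod t)) := by
  have x3 := h.next (nN1 (by omega) (by omega))
  have o3 := x3.next (nX1 (by omega) (by omega))
  have o2 := o3.next (nO1 (by omega) (by omega))
  have e2 : 8 * q + 3 - 1 = 8 * q + 2 := by omega
  rw [e2] at o2
  have x2 := o2.next (nO3 (by omega) (by omega) (by omega))
  have n2 := x2.next (nX2 (by omega) (by omega))
  have n6 := n2.next (nN2 (by omega) (by omega))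
  have e6 : 8 * q + 2 + 4 = 8 * q + 6 := by omega
  rw [e6] at n6
  have x6 := n6.next (nN1 (by omega) (by omega))
  have o6 := x6.next (nX1 (by omega) (by omega))
  have o7 := o6.next (nO2 (by omega) (by omega))
  have e7 : 8 * q + 6 + 1 = 8 * q + 7 := by omega
  rw [e7] at o7
  have x7 := o7.next (nO3 (by omega) (by omega) (by omega))
  have n7 := x7.next (nX2 (by omega) (by omega))
  have n11 := n7.next (nN2 (by omega) (by omega))
  have e11 : 8 * q + 7 + 4 = 8 * (q + 1) + 3 := by omega
  rw [e11] at n11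
  refine ⟨?_, n11⟩
  rintro s (rfl | rfl | rfl | rfl)
  · exact ⟨o2, x2, n2⟩
  · exact ⟨o3, x3, h⟩
  · exact ⟨o6, x6, n6⟩
  · exact ⟨o7, x7, n7⟩

lemma loop2 {m q : ℕ} (ht : t = 8 * m + 3) (hq : q < m) (h : R t (N ((8 * q + 4 : ℕ) : ZMod t))) :
    (∀ s, (s = 4 ∨ s = 5 ∨ s = 8 ∨ s = 9) → R t (O ((8 * q + s : ℕ) : ZMod t)) ∧
      R t (X ((8 * q + s : ℕ) : ZMod t)) ∧ R t (N ((8 * q + s : ℕ) : ZMod t))) ∧
    R t (N ((8 * (q + 1) + 4 : ℕ) : ZMod t)) := by
  have x4 := h.next (nN1 (by omega) (by omega))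
  have o4 := x4.next (nX1 (by omega) (by omega))
  have o5 := o4.next (nO2 (by omega) (by omega))
  have e5 : 8 * q + 4 + 1 = 8 * q + 5 := by omega
  rw [e5] at o5
  have x5 := o5.next (nO3 (by omega) (by omega) (by omega))
  have n5 := x5.next (nX2 (by omega) (by omega))
  have n9 := n5.next (nN2 (by omega) (by omega))
  have e9 : 8 * q + 5 + 4 = 8 * q + 9 := by omega
  rw [e9] at n9
  have x9 := n9.next (nN1 (by omega) (by omega))
  have o9 := x9.next (nX1 (by omega) (by omega))
  have o8 := o9.next (nO1 (by omega) (by omega))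
  have e8 : 8 * q + 9 - 1 = 8 * q + 8 := by omega
  rw [e8] at o8
  have x8 := o8.next (nO3 (by omega) (by omega) (by omega))
  have n8 := x8.next (nX2 (by omega) (by omega))
  have n12 := n8.next (nN2 (by omega) (by omega))
  have e12 : 8 * q + 8 + 4 = 8 * (q + 1) + 4 := by omega
  rw [e12] at n12
  refine ⟨?_, n12⟩
  rintro s (rfl | rfl | rfl | rfl)
  · exact ⟨o4, x4, h⟩
  · exact ⟨o5, x5, n5⟩
  · exact ⟨o8, x8, n8⟩
  · exact ⟨o9, x9, n9⟩

lemma reach {m : ℕ} (ht : t = 8 * m + 3) :
    (∀ w : (Bool × ZMod t) ⊕ ZMod t, w ≠ X 0 → R t w) := by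
  have hX1 : R t (X ((1 : ℕ) : ZMod t)) := ⟨0, by simp⟩
  have o1 := hX1.next (nX1 (by omega) (by omega))
  have o0 := o1.next (nO1 (by omega) (by omega))
  have o0' : R t (O 0) := by simpa using o0
  have om := o0'.next nO0
  have hneg : (-1 : ZMod t) = ((8 * m + 2 : ℕ) : ZMod t) := by
    rw [neg_eq_iff_add_eq_zero]
    have : (1 : ZMod t) + ((8 * m + 2 : ℕ) : ZMod t) = ((8 * m + 3 : ℕ) : ZMod t) := by
      push_cast; ring
    rw [this, ← ht, ZMod.natCast_self]
  rw [hneg] at om
  have xm := om.next (nO3 (by omega) (by omega) (by omega))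
  have nm := xm.next (nX2 (by omega) (by omega))
  have n3 := nm.next (nN2 (by omega) (by omega))
  have ht0 : ((8 * m + 3 : ℕ) : ZMod t) = 0 := by rw [← ht, ZMod.natCast_self]
  have e3 : ((8 * m + 2 + 4 : ℕ) : ZMod t) = ((8 * 0 + 3 : ℕ) : ZMod t) := by
    have : 8 * m + 2 + 4 = (8 * m + 3) + 3 := by ring
    rw [this, Nat.cast_add, ht0]; simp
  rw [e3] at n3
  have l1 : ∀ q, q ≤ m → R t (N ((8 * q + 3 : ℕ) : ZMod t)) := by
    intro q
    induction q with
    | zero => intro _; exact n3
    | succ q ih => intro hq; exact (loop1 ht (by omega) (ih (by omega))).2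
  have n0 := l1 m le_rfl
  rw [ht0] at n0
  have n0' : R t (N ((0 : ℕ) : ZMod t)) := by simpa using n0
  have n4 := n0'.next (nN2 (by omega) (by omega))
  have l2 : ∀ q, q ≤ m → R t (N ((8 * q + 4 : ℕ) : ZMod t)) := by
    intro q
    induction q with
    | zero => intro _; exact n4
    | succ q ih => intro hq; exact (loop2 ht (by omega) (ih (by omega))).2
  have n1 := l2 m le_rfl
  have e1 : ((8 * m + 4 : ℕ) : ZMod t) = ((1 : ℕ) : ZMod t) := by
    have : 8 * m + 4 = (8 * m + 3) + 1 := by ring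
    rw [this, Nat.cast_add, ht0]; simp
  rw [e1] at n1
  have hne : NeZero t := ⟨by omega⟩
  have key : ∀ n : ℕ, n < t → R t (O (n : ZMod t)) ∧ R t (N (n : ZMod t)) ∧ (n ≠ 0 → R t (X (n : ZMod t))) := by
    intro n hn
    by_cases h0 : n = 0
    · subst h0
      exact ⟨by simpa using o0, n0', fun h => absurd rfl h⟩
    by_cases h1 : n = 1
    · subst h1
      exact ⟨o1, n1, fun _ => hX1⟩
    by_cases h2 : n = 8 * m + 2
    · subst h2
      exact ⟨om, nm, fun _ => xm⟩
    obtain ⟨q, s, hq, hs, hns⟩ : ∃ q s, q < m ∧ ((s = 2 ∨ s = 3 ∨ s = 6 ∨ s = 7) ∨ (s = 4 ∨ s = 5 ∨ s = 8 ∨ s = 9)) ∧ n = 8 * q + s :=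
      ⟨(n - 2) / 8, n - 8 * ((n - 2) / 8), by omega, by omega, by omega⟩
    rw [hns]
    rcases hs with hs | hs
    · have := (loop1 ht hq (l1 q (by omega))).1 s hs
      exact ⟨this.1, this.2.2, fun _ => this.2.1⟩
    · have := (loop2 ht hq (l2 q (by omega))).1 s hs
      exact ⟨this.1, this.2.2, fun _ => this.2.1⟩
  have hval : ∀ i : ZMod t, ((i.val : ℕ) : ZMod t) = i := fun i => ZMod.natCast_zmod_val i
  intro w hw
  rcases w with ⟨b, i⟩ | i
  · have := key i.val (ZMod.val_lt i)
    rw [hval] at this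
    cases b
    · exact this.1
    · exact this.2.1
  · have := key i.val (ZMod.val_lt i)
    rw [hval] at this
    apply this.2.2
    intro h0
    apply hw
    have : i = 0 := by rw [← hval i, h0]; simp
    rw [this]; rfl

lemma nx_ne (w : (Bool × ZMod t) ⊕ ZMod t) : nx t w ≠ X 0 := by
  rcases w with ⟨b, i⟩ | i
  · cases b
    · simp only [nx]
      split_ifs with h1
      · simp [O, X]
      · simp [O, X]
      · simp [O, X]
      · simp [X, h1]
    · simp only [nx]
      split_ifs with h1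
      · have : i ≠ 0 := by
          rintro rfl
          rw [ZMod.val_zero] at h1
          omega
        simp [X, this]
      · simp [N, X]
  · simp only [nx]
    split_ifs <;> simp [O, N, X]

lemma nx_adj {m : ℕ} (ht : t = 8 * m + 3) (w : (Bool × ZMod t) ⊕ ZMod t) :
    (base t).graph.Adj w (nx t w) := by
  have h1 : (1 : ZMod t) ≠ 0 := by
    intro h
    have : ((1 : ℕ) : ZMod t) = 0 := by simpa using h
    rw [ZMod.natCast_eq_zero_iff] at this
    have := Nat.le_of_dvd (by norm_num) this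
    omega
  have h4 : (4 : ZMod t) ≠ 0 := by
    intro h
    have : ((4 : ℕ) : ZMod t) = 0 := by simpa using h
    rw [ZMod.natCast_eq_zero_iff] at this
    have h5 := Nat.le_of_dvd (by norm_num) this
    have h6 : m = 0 := by omega
    have h7 : t = 3 := by omega
    rw [h7] at this
    revert this
    decide
  rcases w with ⟨b, i⟩ | i
  · cases b
    · simp only [nx]
      split_ifs with h2
      · subst h2
        simp [O, base, h1]
      · have : i ≠ i - 1 := by
          intro e
          apply h1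
          have : i - (i - 1) = 1 := by ring
          rw [← this, ← e]; ring
        simp [O, base, this]
      · simp [O, base, h1]
      · simp [X, base]
    · simp only [nx]
      split_ifs
      · simp [X, base]
      · simp [N, base, h4]
  · simp only [nx]
    split_ifs <;> simp [O, N, base]

lemma nx_X1 : ∀ k, (nx t)^[k] (X 1) ≠ X 0 ∨ t = 1 := by
  intro k
  by_cases ht : t = 1
  · exact Or.inr ht
  left
  rcases k with _ | k
  · intro h
    simp only [Function.iterate_zero, id, X, Sum.inr.injEq] at h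
    have : ((1 : ℕ) : ZMod t) = 0 := by simpa using h
    rw [ZMod.natCast_eq_zero_iff, Nat.dvd_one] at this
    exact ht this
  · rw [Function.iterate_succ_apply']
    exact nx_ne _

lemma minPer {m : ℕ} (ht : t = 8 * m + 3) :
    Function.minimalPeriod (nx t) (X 1) = 3 * t - 1 := by
  classical
  have hne : NeZero t := ⟨by omega⟩
  set P := Function.minimalPeriod (nx t) (X 1) with hP
  have hper : (X 1 : (Bool × ZMod t) ⊕ ZMod t) ∈ Function.periodicPts (nx t) := by
    obtain ⟨k, hk⟩ := reach ht (N 1) (by simp [N, X])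
    refine ⟨k + 1, by omega, ?_⟩
    show (nx t)^[k + 1] (X 1) = X 1
    rw [Function.iterate_succ_apply', hk]
    have := nN1 (t := t) (n := 1) (by omega) (by omega)
    simpa using this
  have hPpos : 0 < P := Function.minimalPeriod_pos_of_mem_periodicPts hper
  have himg : (Finset.range P).image (fun k => (nx t)^[k] (X 1)) = Finset.univ.erase (X 0) := by
    ext w
    simp only [Finset.mem_image, Finset.mem_range, Finset.mem_erase, Finset.mem_univ, and_true]
    constructor
    · rintro ⟨k, _, rfl⟩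
      rcases nx_X1 (t := t) k with h | h
      · exact h
      · omega
    · intro hw
      obtain ⟨k, hk⟩ := reach ht w hw
      refine ⟨k % P, Nat.mod_lt _ hPpos, ?_⟩
      rw [Function.iterate_mod_minimalPeriod_eq]
      exact hk
  have hcard := congrArg Finset.card himg
  rw [Finset.card_image_of_injOn, Finset.card_range, Finset.card_erase_of_mem (Finset.mem_univ _),
    Finset.card_univ, Fintype.card_sum, Fintype.card_prod, ZMod.card, Fintype.card_bool] at hcard
  · omega
  · intro a ha b hb e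
    rw [Finset.coe_range] at ha hb
    exact Function.iterate_injOn_Iio_minimalPeriod ha hb e

/-- translation -/
def tr (x : ZMod t) : (Bool × ZMod t) ⊕ ZMod t → (Bool × ZMod t) ⊕ ZMod t
  | .inl (b, i) => .inl (b, i + x)
  | .inr i => .inr (i + x)

lemma tr_inj (x : ZMod t) (a b : (Bool × ZMod t) ⊕ ZMod t) : tr x a = tr x b ↔ a = b := by
  rcases a with ⟨a, i⟩ | i <;> rcases b with ⟨b, j⟩ | j <;> simp [tr]

lemma tr_adj (x : ZMod t) {a b : (Bool × ZMod t) ⊕ ZMod t} (h : (base t).graph.Adj a b) :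
    (base t).graph.Adj (tr x a) (tr x b) := by
  rcases a with ⟨a, i⟩ | i <;> rcases b with ⟨b, j⟩ | j
  · simp only [adj_ll, tr, base, ne_eq, Prod.mk.injEq, Equiv.coe_fn_mk, add_left_inj] at h ⊢
    refine ⟨h.1, ?_⟩
    rcases h.2 with h2 | h2
    · left; exact ⟨h2.1, by rw [h2.2]; ring⟩
    · right; exact ⟨h2.1, by rw [h2.2]; ring⟩
  · simp only [adj_lr, tr, base, Prod.mk.injEq, add_left_inj] at h ⊢
    exact h
  · simp only [adj_rl, tr, base, Prod.mk.injEq, add_left_inj] at h ⊢
    exact h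
  · exact absurd h (by simp)

lemma base_cyc {m : ℕ} (ht : t = 8 * m + 3) (x : ZMod t) :
    Cyc (base t).graph (3 * t - 1) (fun k => tr x ((nx t)^[k] (X 1))) := by
  have hP := minPer ht
  refine ⟨by omega, ?_, ?_⟩
  · intro k
    show (base t).graph.Adj (tr x ((nx t)^[k] (X 1))) (tr x ((nx t)^[k + 1] (X 1)))
    rw [Function.iterate_succ_apply']
    exact tr_adj x (nx_adj ht _)
  · intro i j
    rw [tr_inj, ← hP]
    rw [← Function.iterate_mod_minimalPeriod_eq (n := i), ← Function.iterate_mod_minimalPeriod_eq (n := j)]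
    have hpos : 0 < Function.minimalPeriod (nx t) (X 1) := by omega
    exact Function.iterate_eq_iterate_iff_of_lt_minimalPeriod (Nat.mod_lt _ hpos) (Nat.mod_lt _ hpos)

lemma base_good {m : ℕ} (hm : 0 < m) (ht : t = 8 * m + 3) [NeZero t] : Good (base t) t 1 := by
  refine ⟨?_, ?_, ⟨4 * m + 1, by omega⟩, by omega, ?_, ?_⟩
  · constructor
    · rintro (x | x) (y | y) e <;> simp_all [base]
    · rintro ⟨b, i⟩
      cases b
      · exact ⟨.inl i, rfl⟩
      · exact ⟨.inr i, rfl⟩
  · rintro ⟨b, i⟩ k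
    have hk : (base t).f^[k] (b, i) = (b, i + (k : ZMod t) * (if b then 4 else 1)) := by
      induction k with
      | zero => simp
      | succ k ih =>
        rw [Function.iterate_succ_apply', ih]
        simp only [base, Equiv.coe_fn_mk, Prod.mk.injEq, true_and]
        push_cast; ring
    rw [hk, Prod.mk.injEq]
    cases b
    · simp [ZMod.natCast_eq_zero_iff]
    · simp only [if_true, true_and, add_eq_left]
      have : (k : ZMod t) * 4 = ((k * 4 : ℕ) : ZMod t) := by push_cast; ring
      rw [this, ZMod.natCast_eq_zero_iff]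
      constructor
      · intro h
        apply Nat.Coprime.dvd_of_dvd_mul_right _ h
        have : Nat.Coprime t 2 := by
          rw [Nat.coprime_two_right]; exact ⟨4 * m + 1, by omega⟩
        have h22 : (4 : ℕ) = 2 * 2 := rfl
        rw [h22]
        exact Nat.Coprime.mul_right this this
      · intro h; exact Dvd.dvd.mul_right h 4
  · rw [Fintype.card_prod, ZMod.card, Fintype.card_bool]; ring
  · intro x
    refine ⟨(fun k => tr x ((nx t)^[k] (X 1))), ?_, ?_, ?_, ?_⟩
    · have := base_cyc ht x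
      rwa [mul_one]
    · intro k e
      have h1 : tr x ((nx t)^[k] (X 1)) = tr x (X 0) := by
        rw [show (tr x (X 0) : (Bool × ZMod t) ⊕ ZMod t) = .inr x by simp [tr, X]]
        exact e
      rw [tr_inj] at h1
      rcases nx_X1 (t := t) k with h | h
      · exact h h1
      · omega
    · refine ⟨1, ?_, ?_⟩
      · have : nx t (X 1) = O 1 := by
          have := nX1 (t := t) (n := 1) (by omega) (by omega)
          simpa using this
        show tr x ((nx t)^[1] (X 1)) = _
        rw [Function.iterate_one, this]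
        simp [tr, O, base, add_comm]
      · have h1 : nx t (X 1) = O 1 := by
          have := nX1 (t := t) (n := 1) (by omega) (by omega)
          simpa using this
        have h2 : nx t (O 1) = O 0 := by
          have := nO1 (t := t) (n := 1) (by omega) (by omega)
          simpa using this
        show tr x ((nx t)^[1 + 1] (X 1)) = _
        rw [Function.iterate_succ_apply, Function.iterate_one, h1, h2]
        simp [tr, O, base]
    · obtain ⟨k, hk⟩ := reach ht (N 0) (by simp [N, X])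
      refine ⟨k, ?_, ?_⟩
      · show tr x ((nx t)^[k] (X 1)) = _
        rw [hk]
        simp [tr, N, base]
      · show tr x ((nx t)^[k + 1] (X 1)) = _
        rw [Function.iterate_succ_apply', hk]
        have h2 : nx t (N 0) = N 4 := by
          have := nN2 (t := t) (n := 0) (by omega) (by omega)
          simpa using this
        rw [h2]
        simp [tr, N, base, add_comm]

end H830CND
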