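import Mathlib

/-! Block graphs: the vertices of a permutation `f` of `V`, joined in pairs through
extra vertices `x : E` of degree two with neighbours `l x` and `r x`. -/

namespace H830CND

open SimpleGraph

/-- The data of a block graph. -/
structure Dat (V E : Type) where
  f : Equiv.Perm V
  l : E → V
  r : E → V

variable {V E : Type}

/-- adjacency of the block graph -/
def Dat.adj (D : Dat V E) : V ⊕ E → V ⊕ E → Prop
  | .inl v, .inl w => v ≠ w ∧ (w = D.f v ∨ v = D.f w)
  | .inl v, .inr x => v = D.l x ∨ v = D.r x
  | .inr x, .inl v => v = D.l x ∨ v = D.r x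
  | .inr _, .inr _ => False

/-- the block graph -/
def Dat.graph (D : Dat V E) : SimpleGraph (V ⊕ E) where
  Adj := D.adj
  symm := ⟨by
    rintro (v | x) (w | y) h <;> simp only [Dat.adj] at h ⊢
    · exact ⟨h.1.symm, h.2.symm⟩
    · exact h
    · exact h⟩
  loopless := ⟨by
    rintro (v | x) h <;> simp [Dat.adj] at h⟩

variable (D : Dat V E)

@[simp] lemma adj_ll (v w : V) : D.graph.Adj (.inl v) (.inl w) ↔ v ≠ w ∧ (w = D.f v ∨ v = D.f w) := Iff.rfl
@[simp] lemma adj_lr (v : V) (x : E) : D.graph.Adj (.inl v) (.inr x) ↔ v = D.l x ∨ v = D.r x := Iff.rfl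
@[simp] lemma adj_rl (v : V) (x : E) : D.graph.Adj (.inr x) (.inl v) ↔ v = D.l x ∨ v = D.r x := Iff.rfl
@[simp] lemma adj_rr (x y : E) : D.graph.Adj (.inr x) (.inr y) ↔ False := Iff.rfl

open Classical in
/-- number of times the half edge at `v` (to the vertex `m v`) is used -/
noncomputable def U (m : V → E) {a b : V ⊕ E} (p : D.graph.Walk a b) (v : V) : ℕ :=
  p.edges.count s(.inl v, .inr (m v))

open Classical in
/-- number of times `a` occurs on the `f`-orbit of `v` -/
noncomputable def Wt (t : ℕ) (a : V ⊕ E) (v : V) : ℕ :=
  ∑ k ∈ Finset.range t, if a = .inl (D.f^[k] v) then 1 else 0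

lemma Wt_shift {t : ℕ} (ht : ∀ v, D.f^[t] v = v) (w v : V) :
    Wt D t (.inl (D.f w)) v = Wt D t (.inl w) v := by
  classical
  unfold Wt
  have h1 : ∀ k, ((Sum.inl (D.f w) : V ⊕ E) = .inl (D.f^[k + 1] v)) ↔
      ((Sum.inl w : V ⊕ E) = .inl (D.f^[k] v)) := by
    intro k
    rw [Function.iterate_succ_apply']
    simp
  have h2 := Finset.sum_range_succ' (fun k => if (Sum.inl (D.f w) : V ⊕ E) = .inl (D.f^[k] v) then 1 else 0) t
  have h3 := Finset.sum_range_succ (fun k => if (Sum.inl (D.f w) : V ⊕ E) = .inl (D.f^[k] v) then 1 else 0) t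
  rw [ht] at h3
  simp only [Function.iterate_zero, id] at h2
  have h4 : ∑ k ∈ Finset.range t, (if (Sum.inl (D.f w) : V ⊕ E) = .inl (D.f^[k + 1] v) then 1 else 0)
      = ∑ k ∈ Finset.range t, (if (Sum.inl w : V ⊕ E) = .inl (D.f^[k] v) then 1 else 0) := by
    apply Finset.sum_congr rfl
    intro k _
    simp only [h1 k]
  rw [← h4]
  exact Nat.add_right_cancel (h3.symm.trans h2)

/-- `m` is the map sending a block vertex to its connecting vertex -/
structure IsM (m : V → E) : Prop where
  ml : ∀ x, m (D.l x) = x
  mr : ∀ x, m (D.r x) = x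
  cov : ∀ v, v = D.l (m v) ∨ v = D.r (m v)

variable {D}

lemma parity {t : ℕ} (ht : ∀ v, D.f^[t] v = v) {m : V → E} (hm : IsM D m) (v : V) {a b : V ⊕ E}
    (p : D.graph.Walk a b) :
    Even ((∑ k ∈ Finset.range t, U D m p (D.f^[k] v)) + Wt D t a v + Wt D t b v) := by
  classical
  induction p with
  | nil => simp [U]
  | @cons a a' b h p ih =>
    have key : Even ((∑ k ∈ Finset.range t,
        (if s(a, a') = s(.inl (D.f^[k] v), .inr (m (D.f^[k] v))) then 1 else 0))
          + Wt D t a v + Wt D t a' v) := by
      rcases a with w | x <;> rcases a' with w' | y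
      · have h0 : (∑ k ∈ Finset.range t,
          (if s((Sum.inl w : V ⊕ E), .inl w') = s(.inl (D.f^[k] v), .inr (m (D.f^[k] v))) then 1 else 0)) = 0 := by
          apply Finset.sum_eq_zero
          intro k _
          simp
        rw [h0, zero_add]
        rcases (adj_ll D w w').1 h with ⟨_, rfl | rfl⟩
        · rw [Wt_shift D ht]; exact ⟨_, rfl⟩
        · rw [Wt_shift D ht]; exact ⟨_, rfl⟩
      · have hy : y = m w := by
          rcases (adj_lr D w y).1 h with rfl | rfl
          · exact (hm.ml y).symm
          · exact (hm.mr y).symm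
        subst hy
        have h0 : (∑ k ∈ Finset.range t,
          (if s((Sum.inl w : V ⊕ E), .inr (m w)) = s(.inl (D.f^[k] v), .inr (m (D.f^[k] v))) then 1 else 0))
            = Wt D t (.inl w) v := by
          unfold Wt
          apply Finset.sum_congr rfl
          intro k _
          congr 1
          simp only [Sym2.eq_iff, Sum.inl.injEq, Sum.inr.injEq, reduceCtorEq, and_false, or_false,
            eq_iff_iff]
          constructor
          · exact fun h => h.1
          · intro h; exact ⟨h, by rw [h]⟩
        have h1 : Wt D t (.inr (m w)) v = 0 := by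
          unfold Wt; apply Finset.sum_eq_zero; intro k _; simp
        rw [h0, h1, add_zero]; exact ⟨_, rfl⟩
      · have hy : x = m w' := by
          rcases (adj_rl D w' x).1 h with rfl | rfl
          · exact (hm.ml x).symm
          · exact (hm.mr x).symm
        subst hy
        have h0 : (∑ k ∈ Finset.range t,
          (if s((Sum.inr (m w') : V ⊕ E), .inl w') = s(.inl (D.f^[k] v), .inr (m (D.f^[k] v))) then 1 else 0))
            = Wt D t (.inl w') v := by
          unfold Wt
          apply Finset.sum_congr rfl
          intro k _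
          congr 1
          simp only [Sym2.eq_iff, Sum.inl.injEq, Sum.inr.injEq, reduceCtorEq, and_false, false_or,
            eq_iff_iff]
          constructor
          · exact fun h => h.2
          · intro h; exact ⟨by rw [h], h⟩
        have h1 : Wt D t (.inr (m w')) v = 0 := by
          unfold Wt; apply Finset.sum_eq_zero; intro k _; simp
        rw [h0, h1, add_zero]; exact ⟨_, rfl⟩
      · exact absurd h (by simp)
    have hU : ∀ w, U D m (Walk.cons h p) w = U D m p w +
        (if s(a, a') = s(.inl w, .inr (m w)) then 1 else 0) := by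
      intro w
      unfold U
      rw [Walk.edges_cons, List.count_cons]
      simp
    simp only [hU, Finset.sum_add_distrib]
    obtain ⟨i, hi⟩ := ih
    obtain ⟨j, hj⟩ := key
    refine ⟨i + j - Wt D t a' v, ?_⟩
    have : Wt D t a' v ≤ i + j := by omega
    omega

open Classical in
/-- number of occurrences -/
noncomputable def cnt {W : Type} (a : W) (L : List W) : ℕ := L.countP (fun u => decide (u = a))

open Classical in
lemma cnt_cons {W : Type} (a b : W) (L : List W) :
    cnt a (b :: L) = cnt a L + if b = a then 1 else 0 := by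
  unfold cnt
  rw [List.countP_cons]
  simp only [decide_eq_true_eq]

open Classical in
lemma ecount {m : V → E} (hm : IsM D m) (hlr : ∀ x y, D.l x ≠ D.r y) (x : E) {a b : V ⊕ E}
    (p : D.graph.Walk a b) :
    U D m p (D.l x) + U D m p (D.r x) + (if a = .inr x then 1 else 0) + (if b = .inr x then 1 else 0)
      = 2 * cnt (.inr x) p.support := by
  induction p with
  | @nil a =>
    by_cases h : a = .inr x
    · subst h; simp [U, cnt]
    · simp [U, h, cnt]
  | @cons a a' b h p ih =>
    have hU : ∀ w, U D m (Walk.cons h p) w = U D m p w +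
        (if s(a, a') = s(.inl w, .inr (m w)) then 1 else 0) := by
      intro w
      unfold U
      rw [Walk.edges_cons, List.count_cons]
      simp
    rw [hU, hU, Walk.support_cons, cnt_cons, hm.ml, hm.mr]
    have key : (if s(a, a') = s(.inl (D.l x), .inr x) then 1 else 0)
        + (if s(a, a') = s(.inl (D.r x), .inr x) then 1 else 0)
        = (if a = .inr x then 1 else 0) + (if a' = .inr x then 1 else 0) := by
      rcases a with w | y <;> rcases a' with w' | z
      · simp
      · have h' := (adj_lr D w z).1 h
        by_cases hz : z = x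
        · subst hz
          rcases h' with rfl | rfl
          · simp [hlr]
          · simp [(hlr _ _).symm]
        · simp [hz]
      · have h' := (adj_rl D w' y).1 h
        by_cases hz : y = x
        · subst hz
          rcases h' with rfl | rfl
          · simp [hlr]
          · simp [(hlr _ _).symm]
        · simp [hz]
      · exact absurd h (by simp)
    have e1 : (if a = (Sum.inr x : V ⊕ E) then 1 else 0) = @ite ℕ (a = Sum.inr x) (Classical.propDecidable _) 1 0 := by
      congr
    omega

end H830CND
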