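import Pool.Agent.Helper830_CND.Main

namespace H830CND

open SimpleGraph

variable {V E : Type}

open Classical in
/-- voltage of a step -/
noncomputable def volt (D : Dat V E) {R : Type} [AddGroup R] (α : E → R) : V ⊕ E → V ⊕ E → R
  | .inr x, .inl v => if v = D.r x then α x else 0
  | .inl v, .inr x => - if v = D.r x then α x else 0
  | .inl _, .inl _ => 0
  | .inr _, .inr _ => 0

/-- the cyclic cover -/
def cov (D : Dat V E) (p : ℕ) (α : E → ZMod p) : Dat (V × ZMod p) (E × ZMod p) where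
  f := D.f.prodCongr (Equiv.refl _)
  l := fun x => (D.l x.1, x.2)
  r := fun x => (D.r x.1, x.2 + α x.1)

/-- a vertex over `a` at level `j` -/
def lft {p : ℕ} : V ⊕ E → ZMod p → (V × ZMod p) ⊕ (E × ZMod p)
  | .inl v, j => .inl (v, j)
  | .inr x, j => .inr (x, j)

lemma lft_inj {p : ℕ} {a b : V ⊕ E} {i j : ZMod p} : lft a i = lft b j ↔ a = b ∧ i = j := by
  rcases a with a | a <;> rcases b with b | b <;> simp [lft]

lemma exists_lft {p : ℕ} (w : (V × ZMod p) ⊕ (E × ZMod p)) : ∃ a i, w = lft a i := by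
  rcases w with ⟨v, j⟩ | ⟨x, j⟩
  · exact ⟨.inl v, j, rfl⟩
  · exact ⟨.inr x, j, rfl⟩

lemma volt_symm (D : Dat V E) {R : Type} [AddGroup R] (α : E → R) (a b : V ⊕ E) :
    volt D α a b = - volt D α b a := by
  rcases a with a | a <;> rcases b with b | b <;> simp [volt]

lemma cov_adj {D : Dat V E} (hlr : ∀ x y, D.l x ≠ D.r y) {p : ℕ} {α : E → ZMod p}
    {a b : V ⊕ E} {i j : ZMod p} :
    (cov D p α).graph.Adj (lft a i) (lft b j) ↔ D.graph.Adj a b ∧ j = i + volt D α a b := by
  rcases a with v | x <;> rcases b with w | y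
  · simp only [lft, adj_ll, volt, cov, Equiv.prodCongr_apply, Equiv.coe_refl, Prod.map_apply, id,
      Prod.mk.injEq, ne_eq, add_zero]
    constructor
    · rintro ⟨h1, ⟨h2, h3⟩ | ⟨h2, h3⟩⟩
      · subst h3; exact ⟨⟨fun e => h1 ⟨e, rfl⟩, Or.inl h2⟩, rfl⟩
      · subst h3; exact ⟨⟨fun e => h1 ⟨e, rfl⟩, Or.inr h2⟩, rfl⟩
    · rintro ⟨⟨h1, h2 | h2⟩, h3⟩
      · exact ⟨fun e => h1 e.1, Or.inl ⟨h2, h3⟩⟩
      · exact ⟨fun e => h1 e.1, Or.inr ⟨h2, h3.symm⟩⟩
  · simp only [lft, adj_lr, volt, cov, Prod.mk.injEq]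
    constructor
    · rintro (⟨h1, h2⟩ | ⟨h1, h2⟩)
      · refine ⟨Or.inl h1, ?_⟩
        rw [if_neg (by rw [h1]; exact hlr _ _), h2]; simp
      · refine ⟨Or.inr h1, ?_⟩
        rw [if_pos h1, h2]; ring
    · rintro ⟨h1 | h1, h2⟩
      · rw [if_neg (by rw [h1]; exact hlr _ _)] at h2
        left; exact ⟨h1, by rw [h2]; simp⟩
      · rw [if_pos h1] at h2
        right; exact ⟨h1, by rw [h2]; ring⟩
  · simp only [lft, adj_rl, volt, cov, Prod.mk.injEq]
    constructor
    · rintro (⟨h1, h2⟩ | ⟨h1, h2⟩)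
      · refine ⟨Or.inl h1, ?_⟩
        rw [if_neg (by rw [h1]; exact hlr _ _), h2]; simp
      · refine ⟨Or.inr h1, ?_⟩
        rw [if_pos h1, h2]
    · rintro ⟨h1 | h1, h2⟩
      · rw [if_neg (by rw [h1]; exact hlr _ _)] at h2
        left; exact ⟨h1, by rw [h2]; simp⟩
      · rw [if_pos h1] at h2
        right; exact ⟨h1, by rw [h2]⟩
  · simp [lft]

/-- levels along a sequence -/
noncomputable def lev (D : Dat V E) {R : Type} [AddCommGroup R] (α : E → R) (c : ℕ → V ⊕ E) (k : ℕ) : R :=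
  ∑ i ∈ Finset.range k, volt D α (c i) (c (i + 1))

lemma lev_succ (D : Dat V E) {R : Type} [AddCommGroup R] (α : E → R) (c : ℕ → V ⊕ E) (k : ℕ) :
    lev D α c (k + 1) = lev D α c k + volt D α (c k) (c (k + 1)) := by
  unfold lev; rw [Finset.sum_range_succ]

lemma lev_add (D : Dat V E) {R : Type} [AddCommGroup R] (α : E → R) {c : ℕ → V ⊕ E} {L : ℕ}
    (hc : ∀ k, c (k + L) = c k) (k : ℕ) : lev D α c (k + L) = lev D α c k + lev D α c L := by
  induction k with
  | zero => simp [lev]
  | succ k ih =>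
    have e1 : k + 1 + L = (k + L) + 1 := by ring
    have e2 : k + L + 1 = (k + 1) + L := by ring
    rw [e1, lev_succ, ih, hc k, lev_succ]
    have : c (k + L + 1) = c (k + 1) := by rw [e2, hc]
    rw [this]; abel

lemma lev_add_mul (D : Dat V E) {R : Type} [AddCommGroup R] (α : E → R) {c : ℕ → V ⊕ E} {L : ℕ}
    (hc : ∀ k, c (k + L) = c k) (k s : ℕ) :
    lev D α c (k + s * L) = lev D α c k + s • lev D α c L := by
  induction s with
  | zero => simp
  | succ s ih =>
    have e1 : k + (s + 1) * L = (k + s * L) + L := by ring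
    rw [e1, lev_add D α hc, ih, succ_nsmul]; abel

lemma Cyc.periodic {W : Type} {G : SimpleGraph W} {L : ℕ} {c : ℕ → W} (h : Cyc G L c) (k : ℕ) :
    c (k + L) = c k := by
  rw [h.2.2]; simp [Nat.ModEq]

lemma Cyc.periodic_mul {W : Type} {G : SimpleGraph W} {L : ℕ} {c : ℕ → W} (h : Cyc G L c) (k s : ℕ) :
    c (k + s * L) = c k := by
  rw [h.2.2]; simp [Nat.ModEq]

lemma Cyc.lft {D : Dat V E} (hlr : ∀ x y, D.l x ≠ D.r y) {p : ℕ} (hp : p.Prime) {α : E → ZMod p}
    {L : ℕ} {c : ℕ → V ⊕ E} (h : Cyc D.graph L c) (hω : lev D α c L ≠ 0) :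
    Cyc (cov D p α).graph (p * L) (fun k => H830CND.lft (c k) (lev D α c k)) := by
  have : Fact p.Prime := ⟨hp⟩
  have h3 := h.1
  have hp2 := hp.two_le
  refine ⟨by nlinarith, ?_, ?_⟩
  · intro k
    rw [cov_adj hlr]
    exact ⟨h.2.1 k, lev_succ _ _ _ _⟩
  · have main : ∀ i s : ℕ, (H830CND.lft (c i) (lev D α c i) = H830CND.lft (c (i + s)) (lev D α c (i + s)))
        ↔ p * L ∣ s := by
      intro i s
      rw [lft_inj, h.2.2]
      constructor
      · rintro ⟨h1, h2⟩
        have h1' : L ∣ s := by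
          have := (Nat.modEq_iff_dvd' (Nat.le_add_right i s)).1 h1
          simpa using this
        obtain ⟨q, rfl⟩ := h1'
        rw [mul_comm L q, lev_add_mul D α h.periodic] at h2
        have h4 : q • lev D α c L = 0 := by
          have := h2.symm
          simpa using this
        rw [nsmul_eq_mul, mul_eq_zero] at h4
        rcases h4 with h4 | h4
        · rw [ZMod.natCast_eq_zero_iff] at h4
          obtain ⟨q', rfl⟩ := h4
          exact ⟨q', by ring⟩
        · exact absurd h4 hω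
      · rintro ⟨q, rfl⟩
        constructor
        · apply (Nat.modEq_iff_dvd' (Nat.le_add_right _ _)).2
          rw [Nat.add_sub_cancel_left]
          exact ⟨p * q, by ring⟩
        · have : p * L * q = (p * q) * L := by ring
          rw [this, lev_add_mul D α h.periodic, nsmul_eq_mul]
          simp
    intro i j
    rcases le_total i j with hij | hij
    · obtain ⟨s, rfl⟩ := Nat.exists_eq_add_of_le hij
      rw [main i s, Nat.modEq_iff_dvd' (Nat.le_add_right _ _), Nat.add_sub_cancel_left]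
    · obtain ⟨s, rfl⟩ := Nat.exists_eq_add_of_le hij
      rw [eq_comm, main j s, Nat.ModEq.comm, Nat.modEq_iff_dvd' (Nat.le_add_right _ _),
        Nat.add_sub_cancel_left]

lemma lft_covers {D : Dat V E} {p : ℕ} (hp : p.Prime) {α : E → ZMod p}
    {L : ℕ} {c : ℕ → V ⊕ E} (h : Cyc D.graph L c) (hω : lev D α c L ≠ 0) (k : ℕ) (j : ZMod p) :
    ∃ k', lft (c k') (lev D α c k') = lft (c k) j ∧
      lft (c (k' + 1)) (lev D α c (k' + 1)) = lft (c (k + 1)) (j + volt D α (c k) (c (k + 1))) := by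
  have : Fact p.Prime := ⟨hp⟩
  have hs : lev D α c (k + ((j - lev D α c k) / lev D α c L).val * L) = j := by
    rw [lev_add_mul D α h.periodic, nsmul_eq_mul, ZMod.natCast_zmod_val, div_mul_cancel₀ _ hω]
    ring
  set s := ((j - lev D α c k) / lev D α c L).val
  refine ⟨k + s * L, ?_, ?_⟩
  · rw [hs, h.periodic_mul]
  · have e : k + s * L + 1 = (k + 1) + s * L := by ring
    rw [lev_succ, hs, h.periodic_mul, e, h.periodic_mul]

/-- signed binary representations -/
lemma two_adic (ε : ℕ → ℤ) (h : ∀ i, |ε i| ≤ 1) (n : ℕ) :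
    |∑ i ∈ Finset.range n, ε i * 2 ^ i| < 2 ^ n ∧
      (∑ i ∈ Finset.range n, ε i * 2 ^ i = 0 → ∀ i < n, ε i = 0) := by
  induction n with
  | zero => simp
  | succ n ih =>
    rw [Finset.sum_range_succ]
    set S := ∑ i ∈ Finset.range n, ε i * 2 ^ i
    have h1 := ih.1
    have h2 := h n
    have h3 : |ε n * 2 ^ n| ≤ 2 ^ n := by
      rw [abs_mul, abs_of_pos (show (0 : ℤ) < 2 ^ n by positivity)]
      have : (0 : ℤ) < 2 ^ n := by positivity
      nlinarith
    constructor
    · calc |S + ε n * 2 ^ n| ≤ |S| + |ε n * 2 ^ n| := abs_add_le _ _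
        _ < 2 ^ n + 2 ^ n := by linarith
        _ = 2 ^ (n + 1) := by ring
    · intro h0
      have h5 : ε n = 0 := by
        by_contra hne
        have h6 : 1 ≤ |ε n| := Int.one_le_abs hne
        have h7 : |ε n * 2 ^ n| = |S| := by
          have : ε n * 2 ^ n = - S := by linarith
          rw [this, abs_neg]
        rw [abs_mul, abs_of_pos (show (0 : ℤ) < 2 ^ n by positivity)] at h7
        have : (0 : ℤ) < 2 ^ n := by positivity
        nlinarith
      rw [h5, zero_mul, add_zero] at h0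
      intro i hi
      rcases Nat.lt_succ_iff_lt_or_eq.1 hi with hi | hi
      · exact ih.2 h0 i hi
      · rw [hi]; exact h5

open Classical in
/-- signed number of passages through the edge `x - r x` -/
noncomputable def eps (D : Dat V E) (c : ℕ → V ⊕ E) (L : ℕ) (x : E) : ℤ :=
  ∑ k ∈ Finset.range L, ((if c k = .inr x ∧ c (k + 1) = .inl (D.r x) then (1 : ℤ) else 0)
    - (if c k = .inl (D.r x) ∧ c (k + 1) = .inr x then (1 : ℤ) else 0))

lemma lev_int [Fintype E] (D : Dat V E) (α : E → ℤ) (c : ℕ → V ⊕ E) (L : ℕ) :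
    lev D α c L = ∑ x, eps D c L x * α x := by
  classical
  unfold lev eps
  simp only [Finset.sum_mul]
  rw [Finset.sum_comm]
  apply Finset.sum_congr rfl
  intro k _
  rcases c k with v | x <;> rcases c (k + 1) with w | y
  · simp [volt]
  · simp only [volt, reduceCtorEq, false_and, if_false, Sum.inl.injEq, Sum.inr.injEq, zero_sub]
    rw [Finset.sum_eq_single y]
    · simp
    · intro b _ hb
      simp [Ne.symm hb]
    · simp
  · simp only [volt, reduceCtorEq, false_and, if_false, Sum.inl.injEq, Sum.inr.injEq, sub_zero]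
    rw [Finset.sum_eq_single x]
    · simp
    · intro b _ hb
      simp [Ne.symm hb]
    · simp
  · simp [volt]

lemma lev_cast (D : Dat V E) (p : ℕ) (α : E → ℤ) (c : ℕ → V ⊕ E) (L : ℕ) :
    lev D (fun x => ((α x : ℤ) : ZMod p)) c L = ((lev D α c L : ℤ) : ZMod p) := by
  classical
  unfold lev
  rw [Int.cast_sum]
  apply Finset.sum_congr rfl
  intro k _
  rcases c k with v | x <;> rcases c (k + 1) with w | y
  · simp [volt]
  · simp only [volt]; split_ifs <;> simp
  · simp only [volt]; split_ifs <;> simp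
  · simp [volt]

lemma Cyc.sum_le_one {W : Type} {G : SimpleGraph W} {L : ℕ} {c : ℕ → W} (h : Cyc G L c) (a : W)
    (P : ℕ → Prop) {_ : ∀ k, Decidable (c k = a ∧ P k)} :
    (∑ k ∈ Finset.range L, if c k = a ∧ P k then (1 : ℤ) else 0) ≤ 1 := by
  have h1 : (∑ k ∈ Finset.range L, if c k = a ∧ P k then (1 : ℤ) else 0) =
      (((Finset.range L).filter (fun k => c k = a ∧ P k)).card : ℤ) := by
    rw [Finset.card_filter]; push_cast; rfl
  rw [h1]
  have h2 : ((Finset.range L).filter (fun k => c k = a ∧ P k)).card ≤ 1 := by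
    rw [Finset.card_le_one]
    intro i hi j hj
    rw [Finset.mem_filter, Finset.mem_range] at hi hj
    exact h.inj hi.1 hj.1 (by rw [hi.2.1, hj.2.1])
  exact_mod_cast h2

lemma eps_abs {D : Dat V E} {L : ℕ} {c : ℕ → V ⊕ E} (h : Cyc D.graph L c) (x : E) :
    |eps D c L x| ≤ 1 := by
  classical
  unfold eps
  rw [Finset.sum_sub_distrib]
  have h1 : ∑ k ∈ Finset.range L, (if c k = .inr x ∧ c (k + 1) = .inl (D.r x) then (1 : ℤ) else 0) ≤ 1 := by
    exact h.sum_le_one (.inr x) (fun k => c (k + 1) = .inl (D.r x))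
  have h2 : ∑ k ∈ Finset.range L, (if c k = .inl (D.r x) ∧ c (k + 1) = .inr x then (1 : ℤ) else 0) ≤ 1 := by
    exact h.sum_le_one (.inl (D.r x)) (fun k => c (k + 1) = .inr x)
  have h3 : 0 ≤ ∑ k ∈ Finset.range L, (if c k = .inr x ∧ c (k + 1) = .inl (D.r x) then (1 : ℤ) else 0) :=
    Finset.sum_nonneg (fun k _ => by split_ifs <;> norm_num)
  have h4 : 0 ≤ ∑ k ∈ Finset.range L, (if c k = .inl (D.r x) ∧ c (k + 1) = .inr x then (1 : ℤ) else 0) :=
    Finset.sum_nonneg (fun k _ => by split_ifs <;> norm_num)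
  rw [abs_le]
  constructor <;> linarith

lemma Cyc.no_two {W : Type} {G : SimpleGraph W} {L : ℕ} {c : ℕ → W} (h : Cyc G L c) (k : ℕ) :
    c k ≠ c (k + 2) := by
  intro e
  have h1 := (h.2.2 _ _).1 e
  rw [Nat.modEq_iff_dvd' (Nat.le_add_right _ _), Nat.add_sub_cancel_left] at h1
  have := Nat.le_of_dvd (by norm_num) h1
  have := h.1
  omega

lemma eps_ne {D : Dat V E} {L : ℕ} {c : ℕ → V ⊕ E} (h : Cyc D.graph L c) {x : E} {k0 : ℕ}
    (hk0 : c k0 = .inr x) : eps D c L x ≠ 0 := by
  classical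
  have h3 := h.1
  unfold eps
  rw [Finset.sum_sub_distrib]
  -- reduction of indices mod `L`
  have hmod : ∀ k, c (k % L) = c k ∧ c (k % L + 1) = c (k + 1) := by
    intro k
    constructor
    · rw [h.2.2]; exact Nat.mod_modEq _ _
    · rw [h.2.2]; exact Nat.ModEq.add_right 1 (Nat.mod_modEq _ _)
  have hk : c (k0 + L) = .inr x := by rw [h.periodic, hk0]
  obtain ⟨k, hkk⟩ : ∃ k, k0 + L = k + 1 := ⟨k0 + L - 1, by omega⟩
  rw [hkk] at hk
  have a1 := h.2.1 k
  have a2 := h.2.1 (k + 1)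
  rw [hk] at a1 a2
  have hmem : k % L ∈ Finset.range L := Finset.mem_range.2 (Nat.mod_lt _ (by omega))
  have hmem' : (k + 1) % L ∈ Finset.range L := Finset.mem_range.2 (Nat.mod_lt _ (by omega))
  have hA : c (k + 2) = .inl (D.r x) → 1 ≤ ∑ k ∈ Finset.range L,
      (if c k = .inr x ∧ c (k + 1) = .inl (D.r x) then (1 : ℤ) else 0) := by
    intro e
    have := Finset.single_le_sum (s := Finset.range L)
      (f := fun k => if c k = .inr x ∧ c (k + 1) = .inl (D.r x) then (1 : ℤ) else 0)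
      (fun k _ => by split_ifs <;> norm_num) hmem'
    simp only [(hmod (k + 1)).1, (hmod (k + 1)).2, hk] at this
    rw [if_pos ⟨trivial, e⟩] at this
    exact this
  have hB : c k = .inl (D.r x) → 1 ≤ ∑ k ∈ Finset.range L,
      (if c k = .inl (D.r x) ∧ c (k + 1) = .inr x then (1 : ℤ) else 0) := by
    intro e
    have := Finset.single_le_sum (s := Finset.range L)
      (f := fun k => if c k = .inl (D.r x) ∧ c (k + 1) = .inr x then (1 : ℤ) else 0)
      (fun k _ => by split_ifs <;> norm_num) hmem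
    simp only [(hmod k).1, (hmod k).2, hk] at this
    rw [if_pos ⟨e, trivial⟩] at this
    exact this
  have hA0 : c (k + 2) ≠ .inl (D.r x) → ∑ k ∈ Finset.range L,
      (if c k = .inr x ∧ c (k + 1) = .inl (D.r x) then (1 : ℤ) else 0) = 0 := by
    intro e
    apply Finset.sum_eq_zero
    intro i _
    rw [if_neg]
    rintro ⟨e1, e2⟩
    apply e
    rw [← e2, h.2.2]
    have : i ≡ k + 1 [MOD L] := (h.2.2 _ _).1 (by rw [e1, hk])
    exact (this.add_right 1).symm
  have hB0 : c k ≠ .inl (D.r x) → ∑ k ∈ Finset.range L,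
      (if c k = .inl (D.r x) ∧ c (k + 1) = .inr x then (1 : ℤ) else 0) = 0 := by
    intro e
    apply Finset.sum_eq_zero
    intro i _
    rw [if_neg]
    rintro ⟨e1, e2⟩
    apply e
    rw [← e1, h.2.2]
    have : i + 1 ≡ k + 1 [MOD L] := (h.2.2 _ _).1 (by rw [e2, hk])
    exact (Nat.ModEq.add_right_cancel' 1 this).symm
  have hne := h.no_two k
  have b1 : c k = .inl (D.l x) ∨ c k = .inl (D.r x) := by
    rcases hck : c k with v | y
    · rw [hck] at a1
      rcases (adj_lr D v x).1 a1 with e | e <;> simp [e]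
    · rw [hck] at a1; exact absurd a1 (by simp)
  have b2 : c (k + 2) = .inl (D.l x) ∨ c (k + 2) = .inl (D.r x) := by
    rcases hck : c (k + 2) with v | y
    · have a3 : D.graph.Adj (.inr x) (.inl v) := by rw [← hck]; exact a2
      rcases (adj_rl D v x).1 a3 with e | e <;> simp [e]
    · have a3 : D.graph.Adj (.inr x) (.inr y) := by rw [← hck]; exact a2
      exact absurd a3 (by simp)
  by_cases e1 : c k = .inl (D.r x)
  · have e2 : c (k + 2) ≠ .inl (D.r x) := fun e => hne (by rw [e1, e])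
    have := hB e1
    have := hA0 e2
    omega
  · have e2 : c (k + 2) = .inl (D.r x) := by
      rcases b2 with b2 | b2
      · rcases b1 with b1 | b1
        · exact absurd (b1.trans b2.symm) hne
        · exact absurd b1 e1
      · exact b2
    have := hA e2
    have := hB0 e1
    omega

end H830CND
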