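import Pool.Agent.Helper830_CND.Upper

namespace H830CND

open SimpleGraph

/-- closed cyclic sequence of period exactly `L` -/
def Cyc {W : Type} (G : SimpleGraph W) (L : ℕ) (c : ℕ → W) : Prop :=
  3 ≤ L ∧ (∀ k, G.Adj (c k) (c (k + 1))) ∧ ∀ i j, c i = c j ↔ i ≡ j [MOD L]

/-- the walk along a sequence -/
def seqWalk {W : Type} (G : SimpleGraph W) (c : ℕ → W) (h : ∀ k, G.Adj (c k) (c (k + 1))) :
    (n : ℕ) → G.Walk (c 0) (c n)
  | 0 => Walk.nil
  | n + 1 => (seqWalk G c h n).concat (h n)

lemma support_seqWalk {W : Type} (G : SimpleGraph W) (c : ℕ → W)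
    (h : ∀ k, G.Adj (c k) (c (k + 1))) (n : ℕ) :
    (seqWalk G c h n).support = (List.range (n + 1)).map c := by
  induction n with
  | zero => simp [seqWalk]
  | succ n ih =>
    rw [seqWalk, Walk.support_concat, ih, List.range_succ (n := n + 1), List.map_append]
    simp

lemma length_seqWalk {W : Type} (G : SimpleGraph W) (c : ℕ → W)
    (h : ∀ k, G.Adj (c k) (c (k + 1))) (n : ℕ) : (seqWalk G c h n).length = n := by
  induction n with
  | zero => simp [seqWalk]
  | succ n ih => rw [seqWalk, Walk.length_concat, ih]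

/-- the shifted sequence -/
lemma Cyc.shift {W : Type} {G : SimpleGraph W} {L : ℕ} {c : ℕ → W} (h : Cyc G L c) (s : ℕ) :
    Cyc G L (fun k => c (s + k)) := by
  refine ⟨h.1, fun k => h.2.1 (s + k), fun i j => ?_⟩
  rw [h.2.2]
  constructor
  · intro e; exact Nat.ModEq.add_left_cancel' s e
  · intro e; exact Nat.ModEq.add_left s e

lemma Cyc.inj {W : Type} {G : SimpleGraph W} {L : ℕ} {c : ℕ → W} (h : Cyc G L c) {i j : ℕ}
    (hi : i < L) (hj : j < L) (e : c i = c j) : i = j := by
  have := (h.2.2 i j).1 e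
  rwa [Nat.ModEq, Nat.mod_eq_of_lt hi, Nat.mod_eq_of_lt hj] at this

lemma Cyc.isPath {W : Type} {G : SimpleGraph W} {L : ℕ} {c : ℕ → W} (h : Cyc G L c) :
    (seqWalk G c h.2.1 (L - 1)).IsPath := by
  have h3 := h.1
  rw [Walk.isPath_def, support_seqWalk]
  rw [List.nodup_map_iff_inj_on List.nodup_range]
  intro i hi j hj e
  rw [List.mem_range] at hi hj
  exact h.inj (by omega) (by omega) e

/-- path `x, a, ..., b` from a cycle missing `x`, where `b, a` are consecutive and `x ~ a`. -/
lemma path_in {W : Type} {G : SimpleGraph W} {L : ℕ} {c : ℕ → W} (h : Cyc G L c) {x : W}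
    (hx : ∀ k, c k ≠ x) (k : ℕ) (hadj : G.Adj x (c (k + 1))) :
    ∃ p : G.Walk x (c k), p.IsPath ∧ p.length = L := by
  have h3 := h.1
  have hs := h.shift (k + 1)
  have h1 : c (k + 1 + (L - 1)) = c k := by
    rw [h.2.2]
    have : k + 1 + (L - 1) = k + L := by omega
    rw [this]
    simp [Nat.ModEq]
  have hend : c (k + 1 + 0) = c (k + 1) := rfl
  let q := (seqWalk G (fun j => c (k + 1 + j)) hs.2.1 (L - 1)).copy hend h1
  refine ⟨Walk.cons hadj q, ?_, ?_⟩
  · rw [Walk.cons_isPath_iff]
    refine ⟨?_, ?_⟩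
    · rw [Walk.isPath_copy]; exact hs.isPath
    · rw [Walk.support_copy, support_seqWalk]
      simp only [List.mem_map, not_exists, not_and]
      intro j _
      exact hx _
  · rw [Walk.length_cons, Walk.length_copy, length_seqWalk]; omega

/-- path `b, ..., a, x` from a cycle missing `x`, where `a, b` are consecutive and `a ~ x`. -/
lemma path_out {W : Type} {G : SimpleGraph W} {L : ℕ} {c : ℕ → W} (h : Cyc G L c) {x : W}
    (hx : ∀ k, c k ≠ x) (k : ℕ) (hadj : G.Adj (c k) x) :
    ∃ p : G.Walk (c (k + 1)) x, p.IsPath ∧ p.length = L := by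
  have h3 := h.1
  have hs := h.shift (k + 1)
  have h1 : c (k + 1 + (L - 1)) = c k := by
    rw [h.2.2]
    have : k + 1 + (L - 1) = k + L := by omega
    rw [this]
    simp [Nat.ModEq]
  have hend : c (k + 1 + 0) = c (k + 1) := rfl
  let q := (seqWalk G (fun j => c (k + 1 + j)) hs.2.1 (L - 1)).copy hend h1
  have hq : q.IsPath := by rw [Walk.isPath_copy]; exact hs.isPath
  have hxq : x ∉ q.support := by
    rw [Walk.support_copy, support_seqWalk]
    simp only [List.mem_map, not_exists, not_and]
    intro j _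
    exact hx _
  refine ⟨(Walk.cons hadj.symm q.reverse).reverse, ?_, ?_⟩
  · rw [Walk.isPath_reverse_iff, Walk.cons_isPath_iff]
    refine ⟨?_, ?_⟩
    · rw [Walk.isPath_reverse_iff]; exact hq
    · rw [Walk.support_reverse, List.mem_reverse]; exact hxq
  · rw [Walk.length_reverse, Walk.length_cons, Walk.length_reverse, Walk.length_copy, length_seqWalk]
    omega

/-- a cyclic sequence gives a cycle -/
lemma Cyc.not_acyclic {W : Type} {G : SimpleGraph W} {L : ℕ} {c : ℕ → W} (h : Cyc G L c) :
    ¬ G.IsAcyclic := by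
  classical
  intro hac
  have h3 := h.1
  have h1 : G.Adj (c 0) (c (L - 1)) := by
    have := h.2.1 (L - 1)
    have e : c (L - 1 + 1) = c 0 := by
      rw [h.2.2]
      have : L - 1 + 1 = L := by omega
      rw [this]; simp [Nat.ModEq]
    rw [e] at this
    exact this.symm
  have hp := h.isPath
  have hu : (⟨_, hp⟩ : G.Path _ _) = Path.singleton h1 := (hac.subsingleton_path _ _).elim _ _
  have hlen := congrArg (fun p : G.Path _ _ => p.1.length) hu
  simp only [length_seqWalk] at hlen
  simp [Path.singleton] at hlen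
  omega

/-- every cycle gives a cyclic sequence -/
lemma girth_ge {W : Type} {G : SimpleGraph W} {g : ℕ} (h : ∀ L c, Cyc G L c → g ≤ L)
    {L : ℕ} {c : ℕ → W} (hc : Cyc G L c) : g ≤ G.girth := by
  obtain ⟨a, w, hw, hl⟩ := exists_girth_eq_length.2 hc.not_acyclic
  rw [hl]
  apply h w.length (fun k => w.getVert (k % w.length))
  have h3 := hw.three_le_length
  refine ⟨h3, ?_, ?_⟩
  · intro k
    have hlt : k % w.length < w.length := Nat.mod_lt _ (by omega)
    have := w.adj_getVert_succ hlt
    by_cases hk : k % w.length + 1 = w.length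
    · have e : (k + 1) % w.length = 0 := by
        rw [Nat.add_mod, Nat.mod_eq_of_lt (show 1 < w.length by omega), hk, Nat.mod_self]
      show G.Adj (w.getVert (k % w.length)) (w.getVert ((k + 1) % w.length))
      rw [e, Walk.getVert_zero]
      rw [hk, Walk.getVert_length] at this
      exact this
    · have e : (k + 1) % w.length = k % w.length + 1 := by
        rw [Nat.add_mod, Nat.mod_eq_of_lt (show 1 < w.length by omega), Nat.mod_eq_of_lt (by omega)]
      show G.Adj (w.getVert (k % w.length)) (w.getVert ((k + 1) % w.length))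
      rw [e]
      exact this
  · intro i j
    have hi : i % w.length < w.length := Nat.mod_lt _ (by omega)
    have hj : j % w.length < w.length := Nat.mod_lt _ (by omega)
    constructor
    · intro e
      exact hw.getVert_injOn' (by simp only [Set.mem_ofPred_eq]; omega)
        (by simp only [Set.mem_ofPred_eq]; omega) e
    · intro e
      show w.getVert (i % w.length) = w.getVert (j % w.length)
      rw [e]

/-- `v` is an endvertex of a longest path. -/
def IsEndOfLongestPath {W : Type} (G : SimpleGraph W) (v : W) : Prop :=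
  ∃ (w : W) (p : G.Walk v w), p.IsPath ∧ ∀ (a b : W) (q : G.Walk a b), q.IsPath → q.length ≤ p.length

/-- CND graph: connected, no Hamiltonian path, every vertex is an endvertex of a longest path. -/
structure IsCND {W : Type} (G : SimpleGraph W) : Prop where
  connected : G.Connected
  nontraceable : ¬ ∃ (a b : W) (p : G.Walk a b), p.IsPath ∧ ∀ v, v ∈ p.support
  detour : ∀ v, IsEndOfLongestPath G v

variable {V E : Type} [Fintype V] [Fintype E]

/-- the invariants -/
structure Good (D : Dat V E) (t M : ℕ) : Prop where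
  bij : Function.Bijective (Sum.elim D.l D.r)
  per : ∀ v k, D.f^[k] v = v ↔ t ∣ k
  odd : Odd t
  t3 : 3 ≤ t
  card : Fintype.card V = 2 * t * M
  cfg : ∀ x, ∃ c : ℕ → V ⊕ E, Cyc D.graph (3 * t * M - M) c ∧ (∀ k, c k ≠ .inr x) ∧
    (∃ k, c k = .inl (D.f (D.l x)) ∧ c (k + 1) = .inl (D.l x)) ∧
    (∃ k, c k = .inl (D.r x) ∧ c (k + 1) = .inl (D.f (D.r x)))

variable {D : Dat V E} {t M : ℕ}

lemma Good.cardE (h : Good D t M) : Fintype.card E = t * M := by
  have h1 := Fintype.card_of_bijective h.bij
  rw [Fintype.card_sum, h.card] at h1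
  have : 2 * t * M = t * M + t * M := by ring
  omega

lemma Good.upper (h : Good D t M) {a b : V ⊕ E} (p : D.graph.Walk a b) (hp : p.IsPath) :
    p.length ≤ 3 * t * M - M := by
  have h1 := H830CND.upper (fun v => (h.per v t).2 dvd_rfl) h.odd h.bij h.card p hp
  rw [h.card, h.cardE] at h1
  have : 2 * t * M + t * M = 3 * t * M := by ring
  omega

lemma Good.exists_path (h : Good D t M) (v : V ⊕ E) :
    ∃ (w : V ⊕ E) (p : D.graph.Walk v w), p.IsPath ∧ p.length = 3 * t * M - M := by
  rcases v with v | x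
  · obtain ⟨y, hy⟩ := h.bij.2 (D.f.symm v)
    have hv : v = D.f (Sum.elim D.l D.r y) := by rw [hy]; simp
    rcases y with x | x
    · obtain ⟨c, hc, hx, ⟨k, hk1, hk2⟩, -⟩ := h.cfg x
      obtain ⟨p, hp, hl⟩ := path_in hc hx k (by rw [hk2]; simp)
      have e : c k = .inl v := by rw [hk1, hv]; rfl
      refine ⟨_, (p.copy rfl e).reverse, ?_, ?_⟩
      · rw [Walk.isPath_reverse_iff, Walk.isPath_copy]; exact hp
      · rw [Walk.length_reverse, Walk.length_copy, hl]
    · obtain ⟨c, hc, hx, -, ⟨k, hk1, hk2⟩⟩ := h.cfg x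
      obtain ⟨p, hp, hl⟩ := path_out hc hx k (by rw [hk1]; simp)
      have e : c (k + 1) = .inl v := by rw [hk2, hv]; rfl
      refine ⟨_, p.copy e rfl, ?_, ?_⟩
      · rw [Walk.isPath_copy]; exact hp
      · rw [Walk.length_copy, hl]
  · obtain ⟨c, hc, hx, ⟨k, hk1, hk2⟩, -⟩ := h.cfg x
    obtain ⟨p, hp, hl⟩ := path_in hc hx k (by rw [hk2]; simp)
    exact ⟨_, p, hp, hl⟩

lemma Good.isCND (h : Good D t M) (hM : 2 ≤ M) : IsCND D.graph := by
  classical
  have tpos := h.odd.pos
  have hcardW : Fintype.card (V ⊕ E) = 3 * t * M := by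
    rw [Fintype.card_sum, h.card, h.cardE]; ring
  have hMt : M ≤ t * M := Nat.le_mul_of_pos_left _ tpos
  have h3 : 3 * t * M = 3 * (t * M) := by ring
  refine ⟨?_, ?_, ?_⟩
  · have hne : Nonempty (V ⊕ E) := by
      apply Fintype.card_pos_iff.1
      rw [hcardW]; positivity
    refine ⟨?_⟩
    intro u w
    obtain ⟨u', p, hp, hpl⟩ := h.exists_path u
    obtain ⟨w', q, hq, hql⟩ := h.exists_path w
    have hpc : p.support.toFinset.card = 3 * t * M - M + 1 := by
      rw [List.toFinset_card_of_nodup hp.support_nodup, Walk.length_support, hpl]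
    have hqc : q.support.toFinset.card = 3 * t * M - M + 1 := by
      rw [List.toFinset_card_of_nodup hq.support_nodup, Walk.length_support, hql]
    have hnd : ¬ Disjoint p.support.toFinset q.support.toFinset := by
      intro hd
      have h1 := Finset.card_union_of_disjoint hd
      have h2 := Finset.card_le_univ (p.support.toFinset ∪ q.support.toFinset)
      rw [h1, hcardW] at h2
      omega
    rw [Finset.not_disjoint_iff] at hnd
    obtain ⟨z, hz1, hz2⟩ := hnd
    rw [List.mem_toFinset] at hz1 hz2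
    exact (p.takeUntil z hz1).reachable.trans (q.takeUntil z hz2).reachable.symm
  · rintro ⟨a, b, p, hp, hall⟩
    have h1 := h.upper p hp
    have h2 : Fintype.card (V ⊕ E) ≤ p.support.toFinset.card := by
      rw [← Finset.card_univ]
      apply Finset.card_le_card
      intro v _
      rw [List.mem_toFinset]; exact hall v
    rw [List.toFinset_card_of_nodup hp.support_nodup, Walk.length_support, hcardW] at h2
    omega
  · intro v
    obtain ⟨w, p, hp, hl⟩ := h.exists_path v
    refine ⟨w, p, hp, fun a b q hq => ?_⟩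
    rw [hl]
    exact h.upper q hq

end H830CND
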