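import Pool.Agent.Helper830_CND.Cover

namespace H830CND

open SimpleGraph

variable {V E : Type}

/-- the voltages -/
noncomputable def al (E : Type) [Fintype E] (x : E) : ℤ := 2 ^ ((Fintype.equivFin E x : ℕ))

lemma lev_int_zero [Fintype E] {D : Dat V E} {L : ℕ} {c : ℕ → V ⊕ E} (h : Cyc D.graph L c) :
    |lev D (al E) c L| < 2 ^ Fintype.card E ∧
      (lev D (al E) c L = 0 → ∀ k x, c k ≠ .inr x) := by
  classical
  set n := Fintype.card E with hn
  let e := Fintype.equivFin E
  let ε : ℕ → ℤ := fun i => if hi : i < n then eps D c L (e.symm ⟨i, hi⟩) else 0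
  have hε : ∀ i, |ε i| ≤ 1 := by
    intro i
    by_cases hi : i < n
    · simp only [ε, dif_pos hi]; exact eps_abs h _
    · simp only [ε, dif_neg hi]; norm_num
  have hsum : lev D (al E) c L = ∑ i ∈ Finset.range n, ε i * 2 ^ i := by
    rw [lev_int, Finset.sum_range]
    rw [← Equiv.sum_comp e.symm]
    apply Finset.sum_congr rfl
    intro i _
    have : e (e.symm i) = i := e.apply_symm_apply i
    simp only [ε, al]
    rw [dif_pos i.2]
    change eps D c L (e.symm i) * 2 ^ ((e (e.symm i) : ℕ)) = _
    rw [this]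
  have h2 := two_adic ε hε n
  rw [← hsum] at h2
  refine ⟨h2.1, fun h0 k x hk => ?_⟩
  have h3 := h2.2 h0 (e x) (e x).2
  simp only [ε] at h3
  rw [dif_pos (e x).2] at h3
  have : e.symm ⟨(e x : ℕ), (e x).2⟩ = x := by simp
  rw [this] at h3
  exact eps_ne h hk h3

/-- voltages in `ZMod p` -/
noncomputable def alp (E : Type) [Fintype E] (p : ℕ) (x : E) : ZMod p := ((al E x : ℤ) : ZMod p)

lemma lev_zero [Fintype E] {D : Dat V E} {L : ℕ} {c : ℕ → V ⊕ E} (h : Cyc D.graph L c)
    {p : ℕ} (hp : 2 ^ Fintype.card E ≤ p) (h0 : lev D (alp E p) c L = 0) :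
    ∀ k x, c k ≠ .inr x := by
  have h1 := lev_int_zero h
  apply h1.2
  have h2 : ((lev D (al E) c L : ℤ) : ZMod p) = 0 := by
    rw [← lev_cast]; exact h0
  rw [ZMod.intCast_zmod_eq_zero_iff_dvd] at h2
  apply Int.eq_zero_of_abs_lt_dvd h2
  calc _ < (2 : ℤ) ^ Fintype.card E := h1.1
    _ ≤ p := by exact_mod_cast hp

/-- a cycle without connecting vertices runs around an orbit of `f` -/
lemma orbit_len {D : Dat V E} {t : ℕ} (per : ∀ v k, D.f^[k] v = v ↔ t ∣ k) {L : ℕ}
    {c : ℕ → V ⊕ E} (h : Cyc D.graph L c) (hc : ∀ k x, c k ≠ .inr x) : t ≤ L := by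
  have h3 := h.1
  have hv : ∀ k, ∃ v, c k = .inl v := by
    intro k
    rcases hk : c k with v | x
    · exact ⟨v, rfl⟩
    · exact absurd hk (hc k x)
  choose v hv using hv
  have hadj : ∀ k, v (k + 1) = D.f (v k) ∨ v k = D.f (v (k + 1)) := by
    intro k
    have := h.2.1 k
    rw [hv, hv, adj_ll] at this
    exact this.2
  have hne : ∀ k, v k ≠ v (k + 2) := by
    intro k e
    apply h.no_two k
    rw [hv, hv, e]
  have hvL : v L = v 0 := by
    have : c L = c 0 := by rw [h.2.2]; simp [Nat.ModEq]
    rw [hv, hv] at this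
    simpa using this
  have key : D.f^[L] (v 0) = v 0 := by
    rcases hadj 0 with h0 | h0
    · have h1 : ∀ k, v (k + 1) = D.f (v k) := by
        intro k
        induction k with
        | zero => exact h0
        | succ k ih =>
          rcases hadj (k + 1) with h2 | h2
          · exact h2
          · exfalso
            apply hne k
            have : D.f (v k) = D.f (v (k + 2)) := by rw [← ih]; exact h2
            exact D.f.injective this
      have h2 : ∀ k, D.f^[k] (v 0) = v k := by
        intro k
        induction k with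
        | zero => rfl
        | succ k ih => rw [Function.iterate_succ_apply', ih, h1]
      rw [h2, hvL]
    · have h1 : ∀ k, v k = D.f (v (k + 1)) := by
        intro k
        induction k with
        | zero => exact h0
        | succ k ih =>
          rcases hadj (k + 1) with h2 | h2
          · exfalso
            apply hne k
            rw [ih]; exact h2.symm
          · exact h2
      have h2 : ∀ k, D.f^[k] (v k) = v 0 := by
        intro k
        induction k with
        | zero => rfl
        | succ k ih => rw [Function.iterate_succ_apply, ← h1, ih]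
      rw [← hvL]
      rw [← hvL] at h2
      exact h2 L
  exact Nat.le_of_dvd (by omega) ((per _ _).1 key)

/-- girth grows in the cover -/
lemma girth_cov [Fintype E] {D : Dat V E} (hlr : ∀ x y, D.l x ≠ D.r y) {t γ : ℕ}
    (per : ∀ v k, D.f^[k] v = v ↔ t ∣ k)
    (hγ : ∀ L c, Cyc D.graph L c → γ ≤ L) {p : ℕ} (hp : 2 ^ Fintype.card E ≤ p)
    {L : ℕ} {c' : ℕ → (V × ZMod p) ⊕ (E × ZMod p)} (h : Cyc (cov D p (alp E p)).graph L c') :
    min (γ + 1) t ≤ L := by
  by_cases hL : γ + 1 ≤ L
  · exact le_trans (min_le_left _ _) hL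
  have hL : L ≤ γ := by omega
  refine le_trans (min_le_right _ _) ?_
  have h3 := h.1
  choose c j hcj using fun k => exists_lft (c' k)
  have hadj : ∀ k, D.graph.Adj (c k) (c (k + 1)) ∧ j (k + 1) = j k + volt D (alp E p) (c k) (c (k + 1)) := by
    intro k
    have := h.2.1 k
    rw [hcj, hcj, cov_adj hlr] at this
    exact this
  have hne2 : ∀ k, c k ≠ c (k + 2) := by
    intro k e
    apply h.no_two k
    rw [hcj k, hcj (k + 2), lft_inj]
    refine ⟨e, ?_⟩
    have e1 := (hadj k).2
    have e2 : j (k + 2) = j (k + 1) + volt D (alp E p) (c (k + 1)) (c (k + 2)) := (hadj (k + 1)).2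
    rw [e2, e1, ← e, volt_symm D (alp E p) (c (k + 1)) (c k)]
    ring
  have hper : ∀ k, c (k + L) = c k ∧ j (k + L) = j k := by
    intro k
    have := h.periodic k
    rw [hcj, hcj, lft_inj] at this
    exact this
  -- the least gap
  have hex : ∃ d, 0 < d ∧ ∃ i, c i = c (i + d) := ⟨L, by omega, 0, (hper 0).1.symm⟩
  classical
  let d := Nat.find hex
  obtain ⟨hd0, i, hi⟩ := Nat.find_spec hex
  change 0 < d at hd0
  change c i = c (i + d) at hi
  have hmin : ∀ d', 0 < d' → d' < d → ∀ i, c i ≠ c (i + d') := by
    intro d' h1 h2 i' e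
    exact Nat.find_min hex h2 ⟨h1, i', e⟩
  have hdL : d ≤ L := Nat.find_min' hex ⟨by omega, 0, (hper 0).1.symm⟩
  have hd3 : 3 ≤ d := by
    by_contra hlt
    have : d = 1 ∨ d = 2 := by omega
    rcases this with e | e
    · rw [e] at hi
      have := (hadj i).1
      rw [← hi] at this
      exact D.graph.loopless.irrefl _ this
    · rw [e] at hi
      exact hne2 i hi
  have hcyc : Cyc D.graph d (fun k => c (i + k % d)) := by
    refine ⟨hd3, ?_, ?_⟩
    · intro k
      have hlt : k % d < d := Nat.mod_lt _ (by omega)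
      show D.graph.Adj (c (i + k % d)) (c (i + (k + 1) % d))
      by_cases hk : k % d + 1 = d
      · have e : (k + 1) % d = 0 := by
          rw [Nat.add_mod, Nat.mod_eq_of_lt (show 1 < d by omega), hk, Nat.mod_self]
        rw [e, add_zero, hi]
        have := (hadj (i + k % d)).1
        have e2 : i + k % d + 1 = i + d := by omega
        rwa [e2] at this
      · have e : (k + 1) % d = k % d + 1 := by
          rw [Nat.add_mod, Nat.mod_eq_of_lt (show 1 < d by omega), Nat.mod_eq_of_lt (by omega)]
        rw [e]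
        exact (hadj (i + k % d)).1
    · intro a b
      have ha : a % d < d := Nat.mod_lt _ (by omega)
      have hb : b % d < d := Nat.mod_lt _ (by omega)
      show c (i + a % d) = c (i + b % d) ↔ a % d = b % d
      constructor
      · intro e
        by_contra hne
        rcases lt_or_gt_of_ne hne with hlt | hlt
        · apply hmin (b % d - a % d) (by omega) (by omega) (i + a % d)
          rw [e]; congr 1; omega
        · apply hmin (a % d - b % d) (by omega) (by omega) (i + b % d)
          rw [← e]; congr 1; omega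
      · intro e; rw [e]
  have hγd := hγ _ _ hcyc
  have hdL' : d = L := by omega
  have hcperiod : ∀ k, c (k % L) = c k := by
    intro k
    have : ∀ q r, c (r + q * L) = c r := by
      intro q r
      induction q with
      | zero => simp
      | succ q ih =>
        have e : r + (q + 1) * L = (r + q * L) + L := by ring
        rw [e, (hper _).1, ih]
    have h5 := this (k / L) (k % L)
    have h6 : k % L + k / L * L = k := by rw [mul_comm]; exact Nat.mod_add_div k L
    rw [h6] at h5
    exact h5.symm
  have hcyc2 : Cyc D.graph L c := by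
    refine ⟨h3, fun k => (hadj k).1, ?_⟩
    intro a b
    have ha : a % L < L := Nat.mod_lt _ (by omega)
    have hb : b % L < L := Nat.mod_lt _ (by omega)
    rw [← hcperiod a, ← hcperiod b]
    show c (a % L) = c (b % L) ↔ a % L = b % L
    constructor
    · intro e
      by_contra hne
      rcases lt_or_gt_of_ne hne with hlt | hlt
      · apply hmin (b % L - a % L) (by omega) (by omega) (a % L)
        rw [e]; congr 1; omega
      · apply hmin (a % L - b % L) (by omega) (by omega) (b % L)
        rw [← e]; congr 1; omega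
    · intro e; rw [e]
  have hlev : ∀ k, j k = j 0 + lev D (alp E p) c k := by
    intro k
    induction k with
    | zero => simp [lev]
    | succ k ih => rw [(hadj k).2, ih, lev_succ]; ring
  have h0 : lev D (alp E p) c L = 0 := by
    have h6 := hlev L
    have h7 := (hper 0).2
    rw [zero_add] at h7
    rw [h7] at h6
    simpa using h6
  exact orbit_len per hcyc2 (lev_zero hcyc2 hp h0)

variable [Fintype V] [Fintype E]

/-- the cover of a good datum is good -/
lemma Good.cover {D : Dat V E} {t M : ℕ} (h : Good D t M) (hM : 1 ≤ M) {p : ℕ} [NeZero p] (hpp : p.Prime)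
    (hp : 2 ^ Fintype.card E ≤ p) : Good (cov D p (alp E p)) t (p * M) := by
  classical
  have hlr := lr_ne h.bij
  have t3 := h.t3
  refine ⟨?_, ?_, h.odd, h.t3, ?_, ?_⟩
  · constructor
    · rintro (⟨x, i⟩ | ⟨x, i⟩) (⟨y, j⟩ | ⟨y, j⟩) e
      · simp only [cov, Sum.elim_inl, Prod.mk.injEq] at e
        have : (Sum.inl x : E ⊕ E) = .inl y := h.bij.1 e.1
        simp only [Sum.inl.injEq] at this
        rw [this, e.2]
      · simp only [cov, Sum.elim_inl, Sum.elim_inr, Prod.mk.injEq] at e
        exact absurd e.1 (hlr _ _)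
      · simp only [cov, Sum.elim_inl, Sum.elim_inr, Prod.mk.injEq] at e
        exact absurd e.1.symm (hlr _ _)
      · simp only [cov, Sum.elim_inr, Prod.mk.injEq] at e
        have : (Sum.inr x : E ⊕ E) = .inr y := h.bij.1 e.1
        simp only [Sum.inr.injEq] at this
        subst this
        rw [add_right_cancel e.2]
    · rintro ⟨v, j⟩
      obtain ⟨y, rfl⟩ := h.bij.2 v
      rcases y with x | x
      · exact ⟨.inl (x, j), rfl⟩
      · exact ⟨.inr (x, j - alp E p x), by simp [cov]⟩
  · rintro ⟨v, j⟩ k
    have : (cov D p (alp E p)).f^[k] (v, j) = (D.f^[k] v, j) := by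
      induction k with
      | zero => rfl
      | succ k ih =>
        rw [Function.iterate_succ_apply', ih, Function.iterate_succ_apply']
        rfl
    rw [this, Prod.mk.injEq]
    simp [h.per]
  · rw [Fintype.card_prod, h.card, ZMod.card]; ring
  · rintro ⟨x, j⟩
    obtain ⟨c, hc, hx, ⟨k1, hk1, hk1'⟩, ⟨k2, hk2, hk2'⟩⟩ := h.cfg x
    have hMt : 3 * M ≤ t * M := Nat.mul_le_mul_right _ h.t3
    have e3 : 3 * t * M = 3 * (t * M) := by ring
    have hω : lev D (alp E p) c (3 * t * M - M) ≠ 0 := by
      intro h0
      have h1 := lev_zero hc hp h0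
      have hv : ∀ k, ∃ v, c k = .inl v := by
        intro k
        rcases hk : c k with v | x
        · exact ⟨v, rfl⟩
        · exact absurd hk (h1 k x)
      choose v hv using hv
      have hinj : Set.InjOn v (Finset.range (3 * t * M - M)) := by
        intro a ha b hb e
        rw [Finset.coe_range] at ha hb
        exact hc.inj ha hb (by rw [hv, hv, e])
      have h5 := Finset.card_le_card_of_injOn (s := Finset.range (3 * t * M - M)) (t := Finset.univ) v
        (fun _ _ => Finset.mem_univ _) hinj
      rw [Finset.card_range, Finset.card_univ, h.card] at h5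
      have e4 : 2 * t * M = 2 * (t * M) := by ring
      omega
    refine ⟨fun k => lft (c k) (lev D (alp E p) c k), ?_, ?_, ?_, ?_⟩
    · have h5 := hc.lft hlr hpp hω
      have e6 : p * (3 * t * M - M) = 3 * t * (p * M) - p * M := by
        rw [Nat.mul_sub]; congr 1; ring
      rwa [e6] at h5
    · intro k e
      change lft (c k) (lev D (alp E p) c k) = _ at e
      apply hx k
      rcases hk : c k with v | y
      · rw [hk] at e; simp [lft] at e
      · rw [hk] at e
        simp only [lft, Sum.inr.injEq, Prod.mk.injEq] at e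
        rw [e.1]
    · obtain ⟨k', h1, h2⟩ := lft_covers hpp hc hω k1 j
      refine ⟨k', ?_, ?_⟩
      · show lft (c k') _ = _
        rw [h1, hk1]; rfl
      · show lft (c (k' + 1)) _ = _
        rw [h2, hk1', hk1]
        simp [volt, lft, cov]
    · obtain ⟨k', h1, h2⟩ := lft_covers hpp hc hω k2 (j + alp E p x)
      refine ⟨k', ?_, ?_⟩
      · show lft (c k') _ = _
        rw [h1, hk2]; rfl
      · show lft (c (k' + 1)) _ = _
        rw [h2, hk2', hk2]
        simp [volt, lft, cov]

/-- existence of a good datum with girth at least `γ` -/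
def Stage (t γ M : ℕ) : Prop :=
  ∃ (V E : Type) (_ : Fintype V) (_ : Fintype E) (D : Dat V E), Good D t M ∧
    ∀ L c, Cyc D.graph L c → γ ≤ L

lemma Stage.step {t γ M : ℕ} (h : Stage t γ M) (hM : 1 ≤ M) :
    ∃ M', 2 * M ≤ M' ∧ Stage t (min (γ + 1) t) M' := by
  obtain ⟨V, E, _, _, D, hD, hγ⟩ := h
  obtain ⟨p, hp1, hpp⟩ := Nat.exists_infinite_primes (2 ^ Fintype.card E)
  have : NeZero p := ⟨hpp.ne_zero⟩
  refine ⟨p * M, Nat.mul_le_mul_right _ hpp.two_le, V × ZMod p, E × ZMod p, inferInstance, inferInstance,
    cov D p (alp E p), hD.cover hM hpp hp1, ?_⟩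
  intro L c hc
  exact girth_cov (lr_ne hD.bij) hD.per hγ hp1 hc

lemma Stage.iter {t M : ℕ} (h : Stage t 3 M) (hM : 1 ≤ M) (ht : 3 ≤ t) (n : ℕ) :
    ∃ M', 2 ^ n * M ≤ M' ∧ Stage t (min (3 + n) t) M' := by
  induction n with
  | zero =>
    refine ⟨M, by simp, ?_⟩
    simpa [ht] using h
  | succ n ih =>
    obtain ⟨M', h1, h2⟩ := ih
    have h3 : 1 ≤ M' := le_trans (by nlinarith [Nat.one_le_two_pow (n := n)]) h1
    obtain ⟨M'', h4, h5⟩ := h2.step h3
    refine ⟨M'', ?_, ?_⟩
    · calc 2 ^ (n + 1) * M = 2 * (2 ^ n * M) := by ring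
        _ ≤ 2 * M' := by omega
        _ ≤ M'' := h4
    · have e : min (min (3 + n) t + 1) t = min (3 + (n + 1)) t := by omega
      rwa [e] at h5

end H830CND
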