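import Pool.Agent.Helper830_CND.Basic

namespace H830CND

open SimpleGraph

variable {V E : Type} {D : Dat V E}

open Classical in
lemma sum_countP {W : Type} [Fintype W] (L : List W) :
    ∑ w : W, cnt w L = L.length := by
  induction L with
  | nil => simp [cnt]
  | cons a L ih =>
    simp only [cnt_cons, Finset.sum_add_distrib, ih, List.length_cons]
    simp

open Classical in
lemma nodup_countP {W : Type} (L : List W) (h : L.Nodup) (a : W) :
    cnt a L ≤ 1 := by
  have h1 := List.nodup_iff_count_le_one.1 h a
  unfold List.count at h1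
  unfold cnt
  have h2 : (fun u => decide (u = a)) = (fun x => x == a) := by
    funext u
    by_cases h : u = a <;> simp [h]
  rw [h2]
  exact h1

/-- The inverse matching map. -/
noncomputable def mOf (D : Dat V E) (h : Function.Bijective (Sum.elim D.l D.r)) (v : V) : E :=
  Sum.elim id id ((Equiv.ofBijective _ h).symm v)

lemma isM (h : Function.Bijective (Sum.elim D.l D.r)) : IsM D (mOf D h) where
  ml x := by
    have : (Equiv.ofBijective _ h).symm (D.l x) = .inl x := by
      rw [Equiv.symm_apply_eq]; rfl
    simp [mOf, this]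
  mr x := by
    have : (Equiv.ofBijective _ h).symm (D.r x) = .inr x := by
      rw [Equiv.symm_apply_eq]; rfl
    simp [mOf, this]
  cov v := by
    obtain ⟨y, rfl⟩ := h.2 v
    have : (Equiv.ofBijective _ h).symm (Sum.elim D.l D.r y) = y := by
      rw [Equiv.symm_apply_eq]; rfl
    unfold mOf
    rw [this]
    rcases y with y | y <;> simp

lemma lr_ne (h : Function.Bijective (Sum.elim D.l D.r)) (x y : E) : D.l x ≠ D.r y := by
  intro e
  have := @h.1 (.inl x) (.inr y) e
  simp at this

theorem upper [Fintype V] [Fintype E] {t M : ℕ} (ht : ∀ v, D.f^[t] v = v) (todd : Odd t)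
    (h : Function.Bijective (Sum.elim D.l D.r)) (hcard : Fintype.card V = 2 * t * M)
    {a b : V ⊕ E} (p : D.graph.Walk a b) (hp : p.IsPath) :
    p.length + M ≤ Fintype.card V + Fintype.card E := by
  classical
  have hm := isM h
  set m := mOf D h
  have tpos : 0 < t := todd.pos
  have hU1 : ∀ v, U D m p v ≤ 1 := by
    intro v
    exact List.nodup_iff_count_le_one.1 hp.isTrail.edges_nodup _
  have hloc : ∀ v, (∑ k ∈ Finset.range t, U D m p (D.f^[k] v)) + 1 ≤ t + Wt D t a v + Wt D t b v := by
    intro v
    have h1 := parity ht hm v p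
    have h2 : (∑ k ∈ Finset.range t, U D m p (D.f^[k] v)) ≤ t := by
      calc _ ≤ ∑ k ∈ Finset.range t, 1 := Finset.sum_le_sum (fun k _ => hU1 _)
        _ = t := by simp
    obtain ⟨i, hi⟩ := h1
    obtain ⟨j, hj⟩ := todd
    omega
  have hperm : ∀ (g : V → ℕ) (k : ℕ), ∑ v, g (D.f^[k] v) = ∑ v, g v := by
    intro g k
    have := Equiv.sum_comp (D.f ^ k) g
    rw [← this]
    simp only [Equiv.Perm.iterate_eq_pow]
  have hs := Finset.sum_le_sum (fun v (_ : v ∈ Finset.univ) => hloc v)
  simp only [Finset.sum_add_distrib] at hs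
  rw [Finset.sum_comm] at hs
  have hW : ∀ c : V ⊕ E, ∑ v, Wt D t c v = t * ∑ v, (if c = .inl v then 1 else 0) := by
    intro c
    unfold Wt
    rw [Finset.sum_comm]
    simp only [fun k => hperm (fun v => if c = .inl v then 1 else 0) k]
    simp
  rw [hW, hW] at hs
  simp only [fun k => hperm (U D m p) k] at hs
  have hE : ∀ c : V ⊕ E, (∑ v, (if c = .inl v then 1 else 0)) + (∑ x, (if c = .inr x then 1 else 0)) = 1 := by
    intro c
    rcases c with c | c <;> simp
  have hsumU : ∑ x, (U D m p (D.l x) + U D m p (D.r x)) = ∑ v, U D m p v := by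
    rw [← Function.Bijective.sum_comp h, Fintype.sum_sum_type, Finset.sum_add_distrib]
    rfl
  have h2 := Finset.sum_congr rfl (fun x (_ : x ∈ (Finset.univ : Finset E)) =>
    ecount hm (lr_ne h) x p)
  rw [Finset.sum_add_distrib, Finset.sum_add_distrib, hsumU, ← Finset.mul_sum] at h2
  have hlen := sum_countP p.support
  rw [Fintype.sum_sum_type, Walk.length_support] at hlen
  have hle : ∑ v, cnt (.inl v) p.support ≤ Fintype.card V := by
    calc _ ≤ ∑ v : V, 1 := by
            apply Finset.sum_le_sum
            intro v _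
            exact nodup_countP p.support hp.support_nodup (.inl v)
      _ = _ := by simp
  have hVE : Fintype.card V = 2 * Fintype.card E := by
    have := Fintype.card_of_bijective h
    rw [Fintype.card_sum] at this
    omega
  have hEa := hE a
  have hEb := hE b
  simp only [Finset.sum_const, Finset.card_univ, Finset.card_range, smul_eq_mul, mul_one] at hs
  set A := ∑ v, (if a = Sum.inl v then 1 else 0)
  set B := ∑ v, (if b = Sum.inl v then 1 else 0)
  set S := ∑ v, U D m p v
  have h3 : t * (S + 2 * M) ≤ t * (Fintype.card V + A + B) := by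
    calc t * (S + 2 * M) = t * S + 2 * t * M := by ring
      _ = t * S + Fintype.card V := by rw [hcard]
      _ ≤ _ := by
        have : Fintype.card V * t = t * Fintype.card V := mul_comm _ _
        rw [this] at hs
        calc _ ≤ _ := hs
          _ = _ := by ring
  have h4 := Nat.le_of_mul_le_mul_left h3 tpos
  omega

end H830CND
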